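import Pool.Agent.R776.TP.Pack

set_option autoImplicit false

/-! # The tree packing conjecture: three quarters of the edges -/

namespace Pool.Agent.Results.MP_de1a09_co.ThreeQuarters

open Finset

/-- The trees `T i` (`i ∈ I`) pack into `K_n`: there are injective placements of their vertices such
that no edge of `K_n` is used by two of the trees. -/
def Packs (n : ℕ) (T : (i : ℕ) → SimpleGraph (Fin (i + 1))) (I : Finset ℕ) : Prop :=
  ∃ f : (i : ℕ) → Fin (i + 1) → Fin n,
    (∀ i ∈ I, Function.Injective (f i)) ∧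
    ∀ i ∈ I, ∀ j ∈ I, i ≠ j → ∀ (x y : Fin (i + 1)) (z w : Fin (j + 1)),
      (T i).Adj x y → (T j).Adj z w → s(f i x, f i y) ≠ s(f j z, f j w)

theorem general (n : ℕ) (hn : 1 ≤ n) (T : (i : ℕ) → SimpleGraph (Fin (i + 1))) (I : Finset ℕ)
    (hI : ∀ i ∈ I, n * i + 2 * ∑ l ∈ I with i < l, l < n * n)
    (hT : ∀ i ∈ I, (T i).IsTree) : Packs n T I := by
  classical
  have : Nonempty (Fin n) := ⟨⟨0, hn⟩⟩
  have hlt : ∀ i ∈ I, i < n := by
    intro i hi
    have := hI i hi
    exact Nat.lt_of_mul_lt_mul_left (a := n) (by omega)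
  set a : ℕ → ℕ := fun j => if n - j ∈ I then n - j else 0 with ha
  have haI : ∀ i ∈ I, a (n - i) = i := by
    intro i hi
    have := hlt i hi
    have h1 : n - (n - i) = i := by omega
    simp only [ha, h1, hi, if_true]
  have hsum : ∀ j, j ≤ n → ∑ i ∈ range j, a i ≤ ∑ l ∈ I with n - j < l, l := by
    intro j hj
    have h1 : ∑ i ∈ range j, a i =
        ∑ l ∈ (range j).image (fun i => n - i), (if l ∈ I then l else 0) := by
      rw [Finset.sum_image]
      intro x hx y hy hxy
      simp only [Finset.coe_range, Set.mem_Iio] at hx hy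
      simp only at hxy
      omega
    rw [h1, ← Finset.sum_filter]
    apply Finset.sum_le_sum_of_subset
    intro l hl
    simp only [Finset.mem_filter, Finset.mem_image, Finset.mem_range] at hl ⊢
    obtain ⟨⟨i, hi, rfl⟩, hl2⟩ := hl
    exact ⟨hl2, by omega⟩
  obtain ⟨f, f1, f2, -⟩ := R776.TP.pack_seq (V := Fin n) ⊤ a (fun j => T (a j)) (n + 1) (by
    intro j hj
    by_cases h : n - j ∈ I
    · have : a j = n - j := by simp only [ha, h, if_true]
      have h2 : a j ∈ I := by rw [this]; exact h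
      exact hT _ h2
    · have h0 : a j = 0 := by simp only [ha, h, if_false]
      have : Subsingleton (Fin (a j + 1)) := ⟨fun x y => Fin.ext (by omega)⟩
      exact SimpleGraph.IsTree.of_subsingleton) (by
    intro j hj h1
    have hjI : n - j ∈ I := by
      by_contra h
      simp only [ha, h, if_false] at h1
      omega
    have haj : a j = n - j := by simp only [ha, hjI, if_true]
    have h2 := hsum j (by omega)
    have h3 := hI (n - j) hjI
    rw [R776.TP.top_ncard, Nat.card_fin, haj]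
    obtain ⟨i, hi⟩ : ∃ i, n - j = i + 1 := ⟨n - j - 1, by omega⟩
    obtain ⟨n', hn'⟩ : ∃ n', n = n' + 1 := ⟨n - 1, by omega⟩
    rw [hi] at h2 h3 ⊢
    have e1 : i + 1 - 1 = i := by omega
    have e2 : n - 1 = n' := by omega
    rw [e1, e2]
    rw [hn'] at h3 ⊢
    nlinarith)
  refine ⟨fun i => if h : i = a (n - i) then f (n - i) ∘ Fin.cast (by rw [← h])
    else fun _ => Classical.arbitrary _, ?_, ?_⟩
  · intro i hi
    have h := (haI i hi).symm
    simp only [dif_pos h]
    exact ((f1 (n - i) (by omega)).1).comp (Fin.cast_injective _)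
  · intro i hi j hj hij x y z w hxy hzw
    have h := (haI i hi).symm
    have h' := (haI j hj).symm
    have := hlt i hi
    have := hlt j hj
    simp only [dif_pos h, dif_pos h', Function.comp]
    have key : ∀ (i b : ℕ) (e : i = b) (x y : Fin (i + 1)), (T i).Adj x y →
        (T b).Adj (Fin.cast (by rw [e]) x) (Fin.cast (by rw [e]) y) := by
      intro i b e x y hxy
      subst e
      exact hxy
    exact f2 (n - i) (n - j) (by omega) (by omega) (by omega) _ _ _ _
      (key i _ h x y hxy) (key j _ h' z w hzw)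

theorem sum_gt (s i : ℕ) (h : i ≤ s) :
    2 * ∑ l ∈ Icc 1 s with i < l, l + i * (i + 1) = s * (s + 1) := by
  induction s with
  | zero =>
    have : i = 0 := by omega
    subst this; simp
  | succ s ih =>
    rcases Nat.lt_or_ge s i with hsi | hsi
    · have : i = s + 1 := by omega
      subst this
      have he : (Icc 1 (s + 1)).filter (fun l => s + 1 < l) = ∅ := by
        apply Finset.filter_false_of_mem
        intro l hl
        rw [Finset.mem_Icc] at hl
        omega
      rw [he]; simp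
    · have he : (Icc 1 (s + 1)).filter (fun l => i < l) =
          insert (s + 1) ((Icc 1 s).filter (fun l => i < l)) := by
        ext l
        simp only [Finset.mem_filter, Finset.mem_Icc, Finset.mem_insert]
        omega
      rw [he, Finset.sum_insert (by simp)]
      have := ih hsi
      nlinarith

/-- Gyárfás–Lehel tree packing in `K_n` (`n ≥ 1`), the tree `T i` having `i` edges.

* If `I` is a set of indices such that `2 * (sum of the l in I with l > i) < n * (n - i)` for each
  `i ∈ I`, then the trees `T i`, `i ∈ I`, pack into `K_n`, whatever their shapes.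
* In particular `T 1, ..., T s` pack into `K_n` if `4 s (s + 1) ≤ 3 n² + 2 n - 2`.
* In particular `T 1, ..., T s` pack into `K_n` if `s ≤ (√3 / 2) n - 1 / 4`. -/
theorem result (n : ℕ) (hn : 1 ≤ n) (T : (i : ℕ) → SimpleGraph (Fin (i + 1)))
    (hT : ∀ i, (T i).IsTree) :
    (∀ I : Finset ℕ, (∀ i ∈ I, n * i + 2 * ∑ l ∈ I with i < l, l < n * n) → Packs n T I) ∧
    (∀ s : ℕ, 4 * (s * (s + 1)) + 2 ≤ 3 * n ^ 2 + 2 * n → Packs n T (Icc 1 s)) ∧
    (∀ s : ℕ, (s : ℝ) ≤ √3 / 2 * n - 1 / 4 → Packs n T (Icc 1 s)) := by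
  have hA : ∀ I : Finset ℕ, (∀ i ∈ I, n * i + 2 * ∑ l ∈ I with i < l, l < n * n) →
      Packs n T I := fun I hI => general n hn T I hI (fun i _ => hT i)
  have hB : ∀ s : ℕ, 4 * (s * (s + 1)) + 2 ≤ 3 * n ^ 2 + 2 * n → Packs n T (Icc 1 s) := by
    intro s hs
    apply hA
    intro i hi
    rw [Finset.mem_Icc] at hi
    have h := sum_gt s i hi.2
    have key : n * i + s * (s + 1) < n * n + i * (i + 1) := by
      zify at hs ⊢
      nlinarith [sq_nonneg (2 * (i : ℤ) - n + 1)]
    omega
  refine ⟨hA, hB, ?_⟩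
  intro s hs
  apply hB
  have h3 : (0 : ℝ) ≤ √3 := Real.sqrt_nonneg 3
  have hsq : √3 * √3 = 3 := Real.mul_self_sqrt (by norm_num)
  have hs0 : (0 : ℝ) ≤ s := Nat.cast_nonneg s
  have hn1 : (1 : ℝ) ≤ n := by exact_mod_cast hn
  have hle : √3 < 7 / 4 := by
    rw [show (7 / 4 : ℝ) = √((7 / 4) ^ 2) by rw [Real.sqrt_sq (by norm_num)]]
    apply Real.sqrt_lt_sqrt (by norm_num) (by norm_num)
  have key : (4 : ℝ) * (s * (s + 1)) + 1 < 3 * n ^ 2 + 2 * n := by
    have h1 : (s : ℝ) + 1 / 2 ≤ √3 / 2 * n + 1 / 4 := by linarith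
    have h2 : ((s : ℝ) + 1 / 2) ^ 2 ≤ (√3 / 2 * n + 1 / 4) ^ 2 := by
      apply pow_le_pow_left₀ (by linarith) h1
    have h4 : (√3 / 2 * (n : ℝ) + 1 / 4) ^ 2 = 3 / 4 * n ^ 2 + √3 / 4 * n + 1 / 16 := by
      have : (√3 / 2 * (n : ℝ) + 1 / 4) ^ 2 = (√3 * √3) / 4 * n ^ 2 + √3 / 4 * n + 1 / 16 := by
        ring
      rw [this, hsq]
    rw [h4] at h2
    nlinarith
  have key2 : 4 * (s * (s + 1)) + 1 < 3 * n ^ 2 + 2 * n := by exact_mod_cast key
  omega

end Pool.Agent.Results.MP_de1a09_co.ThreeQuarters
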